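import Mathlib

/-!
Two families with intersections of size two: the contraction in characteristic 2.
-/

set_option autoImplicit false
set_option linter.unusedVariables false
set_option linter.unusedSectionVars false

namespace Pool.Agent.TwoFam

open Finset

section defs

variable {α : Type} [Fintype α] [DecidableEq α] {K : Type} [CommRing K]

/-- the values on the pairs `e` of the form `t` on the points other than `r`, the point `r` being the
sum of all the other points -/
def hh (r : α) (t : Finset α → K) (e : Finset α) : K :=
  if r ∈ e then ∑ y ∈ e.erase r, ∑ z ∈ (univ.erase r).erase y, t {y, z} else t e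

/-- the pairing of the contraction of `S` with `T` -/
def D (h : Finset α → K) (S T : Finset α) : K :=
  ∑ e ∈ S.powersetCard 2, if Disjoint (S \ e) T then h e else 0

/-- the contraction of `S` -/
def u (r : α) (h : Finset α → K) (S U : Finset α) : K :=
  ∑ e ∈ S.powersetCard 2, if (S \ e).erase r ⊆ U then h e else 0

def pairT (r : α) (T : Finset α) (w : Finset α → K) : K :=
  if r ∈ T then ∑ z ∈ Tᶜ, w (Tᶜ.erase z) else w (Tᶜ.erase r)

def dd (r : α) (t : Finset α → K) (w : Finset α → K) (Z : Finset α) : K :=
  ∑ e ∈ ((univ.erase r) \ Z).powersetCard 2, t e * w (Z ∪ e)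

end defs

/-- the rank of the contraction -/
def s : ℕ → ℕ → ℕ
  | 0, _ => 0
  | 1, _ => 0
  | (n + 2), a => (if 2 ≤ a then n.choose (a - 2) else 0) + 2 * s n (a - 1)

/-- the generic form supported on the pairs `A k ∩ B k` -/
noncomputable def tt {α : Type} [Fintype α] [DecidableEq α] {ι : Type} (A B : ι → Finset α) (e : Finset α) :
    MvPolynomial (Finset α) (ZMod 2) := by
  classical
  exact if ∃ k, e = A k ∩ B k then MvPolynomial.X e else 0

end Pool.Agent.TwoFam
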