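import Pool.Agent.TwoFam.Defs

set_option autoImplicit false
set_option linter.unusedVariables false
set_option linter.unusedSectionVars false

namespace Pool.Agent.TwoFam

open Finset

namespace N1

theorem s_zero (n : ℕ) : s n 0 = 0 := by
  induction n using Nat.strong_induction_on with
  | _ n ih =>
    match n with
    | 0 => rfl
    | 1 => rfl
    | (n + 2) =>
      rw [s]
      simp [ih n (by omega)]

theorem num_aux (c : ℕ) : ∀ b : ℕ, c + 2 ≤ b →
    (c + 2 + b - 2).choose c =
      (∑ i ∈ Icc 2 (c + 2), 2 ^ (i - 2) * (c + 2 + b - 2 * i).choose (c + 2 - i))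
        + s (c + 2 + b - 2) c := by
  induction c with
  | zero =>
    intro b hb
    rw [s_zero]
    simp
  | succ c ih =>
    intro b hb
    obtain ⟨b', rfl⟩ : ∃ b', b = b' + 1 := ⟨b - 1, by omega⟩
    have ih' := ih b' (by omega)
    have e1 : c + 1 + 2 + (b' + 1) - 2 = (c + b') + 2 := by omega
    have e2 : c + 2 + b' - 2 = c + b' := by omega
    rw [e2] at ih'
    rw [e1]
    have hsum : (∑ i ∈ Icc 2 (c + 1 + 2), 2 ^ (i - 2) * (c + 1 + 2 + (b' + 1) - 2 * i).choose (c + 1 + 2 - i))
        = (c + b').choose (c + 1)
          + 2 * ∑ i ∈ Icc 2 (c + 2), 2 ^ (i - 2) * (c + 2 + b' - 2 * i).choose (c + 2 - i) := by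
      have h1 : Icc 2 (c + 1 + 2) = insert 2 ((Icc 2 (c + 2)).image (· + 1)) := by
        ext x
        simp only [mem_Icc, mem_insert, mem_image]
        constructor
        · intro hx
          by_cases h : x = 2
          · exact Or.inl h
          · exact Or.inr ⟨x - 1, by omega, by omega⟩
        · rintro (h | ⟨y, hy, rfl⟩)
          · omega
          · omega
      rw [h1, sum_insert, sum_image, mul_sum]
      · congr 1
        · have : c + 1 + 2 + (b' + 1) - 2 * 2 = c + b' := by omega
          rw [this]
          simp
        · apply sum_congr rfl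
          intro i hi
          rw [mem_Icc] at hi
          have t1 : i + 1 - 2 = (i - 2) + 1 := by omega
          have t2 : c + 1 + 2 + (b' + 1) - 2 * (i + 1) = c + 2 + b' - 2 * i := by omega
          have t3 : c + 1 + 2 - (i + 1) = c + 2 - i := by omega
          rw [t1, t2, t3, pow_succ]
          ring
      · intro x _ y _ h
        simpa using h
      · simp only [mem_image, mem_Icc, not_exists, not_and]
        intro x hx
        omega
    rw [hsum]
    rw [s]
    have hc : c + 1 - 1 = c := by omega
    rw [hc]
    rcases c with _ | c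
    · simp only [zero_add] at *
      have : (b' + 2).choose 1 = b' + 2 := by simp
      rw [this]
      simp only [Nat.choose_zero_right, Nat.choose_one_right] at ih' ⊢
      simp only [show ¬ (2 ≤ 1) by omega, if_false, zero_add]
      omega
    · have : 2 ≤ c + 1 + 1 := by omega
      rw [if_pos this]
      have t4 : c + 1 + 1 - 2 = c := by omega
      rw [t4]
      have p1 : (c + 1 + b' + 2).choose (c + 1 + 1)
          = (c + 1 + b').choose (c + 1 + 1) + 2 * (c + 1 + b').choose (c + 1)
            + (c + 1 + b').choose c := by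
        rw [Nat.choose_succ_succ' (c + 1 + b' + 1) (c + 1),
          Nat.choose_succ_succ' (c + 1 + b') (c + 1), Nat.choose_succ_succ' (c + 1 + b') c]
        ring
      rw [p1]
      omega

theorem num (a b : ℕ) (h2 : 2 ≤ a) (hab : a ≤ b) :
    (a + b - 2).choose (a - 2) =
      (∑ i ∈ Icc 2 a, 2 ^ (i - 2) * (a + b - 2 * i).choose (a - i)) + s (a + b - 2) (a - 2) := by
  obtain ⟨c, rfl⟩ : ∃ c, a = c + 2 := ⟨a - 2, by omega⟩
  have := num_aux c b hab
  simpa using this

end N1

export N1 (num)

end Pool.Agent.TwoFam
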