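import Pool.Agent.TwoFam.Defs

set_option autoImplicit false
set_option linter.unusedVariables false
set_option linter.unusedSectionVars false

namespace Pool.Agent.TwoFam

open Finset

namespace N3

theorem pairT_u_aux {α : Type} [Fintype α] [DecidableEq α] {K : Type} [CommRing K] [CharP K 2]
    (r : α) (c : K) (Q T : Finset α) (a : ℕ) (ha : 2 ≤ a)
    (hTc : (Tᶜ : Finset α).card = a - 1) (hQ : Q.card = a - 2) (hr : r ∈ T) :
    (∑ z ∈ Tᶜ, if Q.erase r ⊆ Tᶜ.erase z then c else 0) = if Disjoint Q T then c else 0 := by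
  by_cases hsub : Q.erase r ⊆ Tᶜ
  · have hf : (Tᶜ : Finset α).filter (fun z => Q.erase r ⊆ Tᶜ.erase z) = Tᶜ \ Q.erase r := by
      ext z
      rw [Finset.mem_filter, Finset.mem_sdiff]
      refine and_congr_right fun hz => ?_
      rw [Finset.subset_erase]
      exact ⟨fun h => h.2, fun h => ⟨hsub, h⟩⟩
    have hsum : (∑ z ∈ Tᶜ, if Q.erase r ⊆ Tᶜ.erase z then c else 0) =
        ((Tᶜ \ Q.erase r).card : K) * c := by
      rw [← Finset.sum_filter, hf, Finset.sum_const, nsmul_eq_mul]
    have hcard : (Tᶜ \ Q.erase r).card = (a - 1) - (Q.erase r).card := by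
      rw [Finset.card_sdiff_of_subset hsub, hTc]
    rw [hsum, hcard]
    by_cases hrQ : r ∈ Q
    · have h1 : (Q.erase r).card = a - 3 := by
        rw [Finset.card_erase_of_mem hrQ, hQ]; omega
      have hpos : 0 < Q.card := Finset.card_pos.mpr ⟨r, hrQ⟩
      have h2 : (a - 1) - (Q.erase r).card = 2 := by
        rw [h1]; omega
      have h3 : ¬ Disjoint Q T := fun hd => (Finset.disjoint_left.mp hd hrQ) hr
      rw [h2, if_neg h3]
      have : ((2 : ℕ) : K) = 0 := CharP.cast_eq_zero K 2
      rw [this, zero_mul]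
    · have h1 : (Q.erase r).card = a - 2 := by
        rw [Finset.erase_eq_of_notMem hrQ, hQ]
      have h2 : (a - 1) - (Q.erase r).card = 1 := by
        rw [h1]; omega
      have h3 : Disjoint Q T := by
        rw [Finset.erase_eq_of_notMem hrQ] at hsub
        rw [Finset.disjoint_left]
        intro x hx hxT
        exact (Finset.mem_compl.mp (hsub hx)) hxT
      rw [h2, if_pos h3]
      simp
  · have h3 : ¬ Disjoint Q T := by
      intro hd
      apply hsub
      intro x hx
      rw [Finset.mem_compl]
      exact Finset.disjoint_left.mp hd (Finset.mem_of_mem_erase hx)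
    rw [if_neg h3]
    refine Finset.sum_eq_zero fun z _ => ?_
    rw [if_neg]
    intro h
    exact hsub (h.trans (Finset.erase_subset _ _))

theorem pairT_u {α : Type} [Fintype α] [DecidableEq α] {K : Type} [CommRing K] [CharP K 2]
    (r : α) (h : Finset α → K) (S T : Finset α) (a b : ℕ) (ha : 2 ≤ a) (hb : 1 ≤ b)
    (hα : Fintype.card α = a + b - 1) (hS : S.card = a) (hT : T.card = b) :
    pairT r T (u r h S) = D h S T := by
  unfold pairT u D
  by_cases hr : r ∈ T
  · rw [if_pos hr, Finset.sum_comm]
    refine Finset.sum_congr rfl fun e he => ?_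
    rw [Finset.mem_powersetCard] at he
    refine pairT_u_aux r (h e) (S \ e) T a ha ?_ ?_ hr
    · rw [Finset.card_compl, hα, hT]; omega
    · rw [Finset.card_sdiff_of_subset he.1, hS, he.2]
  · rw [if_neg hr]
    refine Finset.sum_congr rfl fun e he => ?_
    have hiff : (S \ e).erase r ⊆ Tᶜ.erase r ↔ Disjoint (S \ e) T := by
      constructor
      · intro hsub
        rw [Finset.disjoint_left]
        intro x hx hxT
        by_cases hxr : x = r
        · exact hr (hxr ▸ hxT)
        · have := hsub (Finset.mem_erase.mpr ⟨hxr, hx⟩)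
          exact (Finset.mem_compl.mp (Finset.mem_of_mem_erase this)) hxT
      · intro hd x hx
        rw [Finset.mem_erase] at hx ⊢
        exact ⟨hx.1, Finset.mem_compl.mpr (Finset.disjoint_left.mp hd hx.2)⟩
    simp only [hiff]

end N3

export N3 (pairT_u)

end Pool.Agent.TwoFam
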