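import Pool.Agent.TwoFam.Defs

set_option autoImplicit false
set_option linter.unusedVariables false
set_option linter.unusedSectionVars false

namespace Pool.Agent.TwoFam

open Finset

namespace N4

section aux

variable {α : Type} [Fintype α] [DecidableEq α] {K : Type} [CommRing K]

lemma sum_pairs_insert {a : α} {S0 : Finset α} (ha : a ∉ S0) (F : Finset α → K) :
    ∑ e ∈ (insert a S0).powersetCard 2, F e
      = ∑ e ∈ S0.powersetCard 2, F e + ∑ y ∈ S0, F {a, y} := by
  rw [show (2:ℕ) = 1 + 1 from rfl, powersetCard_succ_insert ha 1, sum_union, sum_image]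
  · rw [powersetCard_one, sum_map]
    rfl
  · intro x hx y hy hxy
    have hax : a ∉ x := fun h => ha ((mem_powersetCard.1 hx).1 h)
    have hay : a ∉ y := fun h => ha ((mem_powersetCard.1 hy).1 h)
    rw [← erase_insert hax, ← erase_insert hay]
    exact congrArg (fun q => Finset.erase q a) hxy
  · rw [disjoint_left]
    intro e he he'
    obtain ⟨x, hx, rfl⟩ := mem_image.1 he'
    exact ha ((mem_powersetCard.1 he).1 (mem_insert_self a x))

lemma pfact (r : α) (S Z : Finset α) (hrS : r ∉ S) (hS : S.card = Z.card + 4)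
    (e e2 : Finset α) (he : e ∈ ((univ.erase r) \ Z).powersetCard 2) (he2 : e2 ∈ S.powersetCard 2)
    (h : (S \ e2).erase r ⊆ Z ∪ e) : S \ e2 = Z ∪ e := by
  rw [mem_powersetCard] at he he2
  have h1 : (S \ e2).erase r = S \ e2 := erase_eq_of_notMem (fun h => hrS (mem_sdiff.1 h).1)
  rw [h1] at h
  apply eq_of_subset_of_card_le h
  have h2 := card_sdiff_add_card_eq_card he2.1
  have h3 := card_union_le Z e
  omega

lemma case1 [CharP K 2] (r : α) (t : Finset α → K) (S Z : Finset α) (hZ : r ∉ Z) (hrS : r ∉ S)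
    (hS : S.card = Z.card + 4) : dd r t (u r t S) Z = 0 := by
  unfold dd u
  simp_rw [mul_sum, mul_ite, mul_zero]
  rw [← sum_product', ← sum_filter]
  have key : ∀ p : Finset α × Finset α,
      p ∈ (((univ.erase r) \ Z).powersetCard 2 ×ˢ S.powersetCard 2).filter
        (fun x => (S \ x.2).erase r ⊆ Z ∪ x.1) →
      (p.1 ⊆ (univ.erase r) \ Z ∧ p.1.card = 2) ∧ (p.2 ⊆ S ∧ p.2.card = 2) ∧
        S \ p.2 = Z ∪ p.1 := by
    intro p hp
    rw [mem_filter, mem_product] at hp
    have := pfact r S Z hrS hS p.1 p.2 hp.1.1 hp.1.2 hp.2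
    exact ⟨mem_powersetCard.1 hp.1.1, mem_powersetCard.1 hp.1.2, this⟩
  refine sum_involution (fun p _ => (p.2, p.1)) ?_ ?_ ?_ ?_
  · intro p hp
    simp only
    rw [mul_comm (t p.2) (t p.1)]
    exact CharTwo.add_self_eq_zero _
  · intro p hp _ heq
    obtain ⟨⟨h1, h2⟩, ⟨h3, h4⟩, h5⟩ := key p hp
    have h6 : p.2 = p.1 := congrArg Prod.fst heq
    obtain ⟨x, hx⟩ : p.1.Nonempty := by rw [← card_pos]; omega
    have h7 : x ∈ S \ p.2 := by rw [h5]; exact mem_union_right _ hx
    rw [h6] at h7
    exact (mem_sdiff.1 h7).2 hx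
  · intro p hp
    obtain ⟨⟨h1, h2⟩, ⟨h3, h4⟩, h5⟩ := key p hp
    rw [mem_filter, mem_product, mem_powersetCard, mem_powersetCard]
    refine ⟨⟨⟨?_, h4⟩, ⟨?_, h2⟩⟩, ?_⟩
    · intro x hx
      rw [mem_sdiff, mem_erase]
      refine ⟨⟨fun h => hrS (h ▸ h3 hx), mem_univ _⟩, fun hxZ => ?_⟩
      have : x ∈ S \ p.2 := by rw [h5]; exact mem_union_left _ hxZ
      exact (mem_sdiff.1 this).2 hx
    · intro x hx
      have : x ∈ S \ p.2 := by rw [h5]; exact mem_union_right _ hx
      exact (mem_sdiff.1 this).1
    · intro x hx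
      simp only [mem_erase, mem_sdiff] at hx
      rw [mem_union]
      by_cases hx2 : x ∈ p.2
      · exact Or.inr hx2
      · have : x ∈ Z ∪ p.1 := by rw [← h5]; exact mem_sdiff.2 ⟨hx.2.1, hx2⟩
        rcases mem_union.1 this with h | h
        · exact Or.inl h
        · exact absurd h hx.2.2
  · intro p hp
    rfl

lemma u_hh (r : α) (t : Finset α → K) (S U : Finset α) (hrS : r ∉ S) :
    u r (hh r t) S U = u r t S U := by
  unfold u
  refine sum_congr rfl fun e he => ?_
  have : r ∉ e := fun h => hrS ((mem_powersetCard.1 he).1 h)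
  simp [hh, this]

lemma u_split [CharP K 2] (r : α) (t : Finset α → K) (S0 U : Finset α) (hr : r ∉ S0) (hU : r ∉ U)
    (hc : S0.card = U.card + 1) :
    u r (hh r t) (insert r S0) U = ∑ z ∈ (univ.erase r) \ S0, u r t (insert z S0) U := by
  have hL : u r (hh r t) (insert r S0) U =
      (∑ e ∈ S0.powersetCard 2, if S0 \ e ⊆ U then t e else 0) +
      ∑ y ∈ S0, if S0.erase y ⊆ U then ∑ z ∈ (univ.erase r).erase y, t {y, z} else 0 := by
    unfold u
    rw [sum_pairs_insert hr]
    congr 1
    · refine sum_congr rfl fun e he => ?_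
      have hre : r ∉ e := fun h => hr ((mem_powersetCard.1 he).1 h)
      have h1 : (insert r S0 \ e).erase r = S0 \ e := by
        ext x
        simp only [mem_erase, mem_sdiff, mem_insert]
        constructor
        · rintro ⟨h1, h2 | h2, h3⟩
          · exact absurd h2 h1
          · exact ⟨h2, h3⟩
        · rintro ⟨h1, h2⟩
          exact ⟨fun h => hr (h ▸ h1), Or.inr h1, h2⟩
      rw [h1]
      simp [hh, hre]
    · refine sum_congr rfl fun y hy => ?_
      have hyr : y ≠ r := fun h => hr (h ▸ hy)
      have h1 : (insert r S0 \ {r, y}).erase r = S0.erase y := by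
        ext x
        simp only [mem_erase, mem_sdiff, mem_insert, mem_singleton]
        constructor
        · rintro ⟨h1, h2 | h2, h3⟩
          · exact absurd h2 h1
          · exact ⟨fun h => h3 (Or.inr h), h2⟩
        · rintro ⟨h1, h2⟩
          have : x ≠ r := fun h => hr (h ▸ h2)
          exact ⟨this, Or.inr h2, fun h => h.elim this h1⟩
      rw [h1]
      have h2 : ({r, y} : Finset α).erase r = {y} := by
        ext x
        simp only [mem_erase, mem_insert, mem_singleton]
        constructor
        · rintro ⟨h1, h2 | h2⟩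
          · exact absurd h2 h1
          · exact h2
        · rintro rfl
          exact ⟨hyr, Or.inr rfl⟩
      have h3 : hh r t {r, y} = ∑ z ∈ (univ.erase r).erase y, t {y, z} := by
        unfold hh
        rw [if_pos (mem_insert_self r {y}), h2, sum_singleton]
      rw [h3]
  have hR : ∀ z ∈ (univ.erase r) \ S0, u r t (insert z S0) U =
      (∑ e ∈ S0.powersetCard 2, if insert z (S0 \ e) ⊆ U then t e else 0) +
      ∑ y ∈ S0, if S0.erase y ⊆ U then t {z, y} else 0 := by
    intro z hz
    rw [mem_sdiff, mem_erase] at hz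
    have hz0 := hz.2
    have hzr := hz.1.1
    unfold u
    rw [sum_pairs_insert hz0]
    congr 1
    · refine sum_congr rfl fun e he => ?_
      have hze : z ∉ e := fun h => hz0 ((mem_powersetCard.1 he).1 h)
      have h1 : (insert z S0 \ e).erase r = insert z (S0 \ e) := by
        ext x
        simp only [mem_erase, mem_sdiff, mem_insert]
        constructor
        · rintro ⟨h1, h2 | h2, h3⟩
          · exact Or.inl h2
          · exact Or.inr ⟨h2, h3⟩
        · rintro (h | ⟨h1, h2⟩)
          · subst h; exact ⟨hzr, Or.inl rfl, hze⟩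
          · exact ⟨fun h => hr (h ▸ h1), Or.inr h1, h2⟩
      rw [h1]
    · refine sum_congr rfl fun y hy => ?_
      have h1 : (insert z S0 \ {z, y}).erase r = S0.erase y := by
        ext x
        simp only [mem_erase, mem_sdiff, mem_insert, mem_singleton]
        constructor
        · rintro ⟨h1, h2 | h2, h3⟩
          · exact absurd (Or.inl h2) h3
          · exact ⟨fun h => h3 (Or.inr h), h2⟩
        · rintro ⟨h1, h2⟩
          have h4 : x ≠ r := fun h => hr (h ▸ h2)
          have h5 : x ≠ z := fun h => hz0 (h ▸ h2)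
          exact ⟨h4, Or.inr h2, fun h => h.elim h5 h1⟩
      rw [h1]
  rw [hL, sum_congr rfl hR]
  by_cases hUS : U ⊆ S0
  · -- U = S0.erase y
    obtain ⟨y, hy, rfl⟩ : ∃ y ∈ S0, U = S0.erase y := by
      have h1 : (S0 \ U).card = 1 := by
        have := card_sdiff_add_card_eq_card hUS
        omega
      obtain ⟨y, hy⟩ := card_eq_one.1 h1
      have hy1 : y ∈ S0 \ U := by rw [hy]; exact mem_singleton_self y
      refine ⟨y, (mem_sdiff.1 hy1).1, ?_⟩
      ext x
      rw [mem_erase]
      constructor
      · intro hx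
        refine ⟨fun h => (mem_sdiff.1 hy1).2 (h ▸ hx), hUS hx⟩
      · rintro ⟨h2, h3⟩
        by_contra h4
        have : x ∈ S0 \ U := mem_sdiff.2 ⟨h3, h4⟩
        rw [hy, mem_singleton] at this
        exact h2 this
    have hcond : ∀ y' ∈ S0, (S0.erase y' ⊆ S0.erase y ↔ y' = y) := by
      intro y' hy'
      constructor
      · intro h
        by_contra hne
        have : y ∈ S0.erase y := h (mem_erase.2 ⟨fun h => hne h.symm, hy⟩)
        exact (mem_erase.1 this).1 rfl
      · rintro rfl
        exact Subset.refl _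
    have hsum : ∀ G : α → K, ∑ y' ∈ S0, (if S0.erase y' ⊆ S0.erase y then G y' else 0) = G y := by
      intro G
      rw [sum_congr rfl (fun y' hy' => if_congr (hcond y' hy') rfl rfl), sum_ite_eq' S0 y G,
        if_pos hy]
    rw [hsum (fun y => ∑ z ∈ (univ.erase r).erase y, t {y, z})]
    have hfirst : ∑ e ∈ S0.powersetCard 2, (if S0 \ e ⊆ S0.erase y then t e else 0) =
        ∑ z ∈ S0.erase y, t {y, z} := by
      conv_lhs => rw [← insert_erase hy]
      rw [sum_pairs_insert (notMem_erase y S0)]
      have h1 : ∑ e ∈ (S0.erase y).powersetCard 2,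
          (if insert y (S0.erase y) \ e ⊆ (insert y (S0.erase y)).erase y then t e else 0) = 0 := by
        refine sum_eq_zero fun e he => ?_
        rw [if_neg]
        intro h
        have hye : y ∉ e := fun h => (notMem_erase y S0) ((mem_powersetCard.1 he).1 h)
        have := h (mem_sdiff.2 ⟨mem_insert_self y _, hye⟩)
        exact (mem_erase.1 this).1 rfl
      rw [h1, zero_add]
      refine sum_congr rfl fun z hz => ?_
      rw [if_pos]
      intro x hx
      simp only [mem_sdiff, mem_insert, mem_singleton, mem_erase] at hx ⊢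
      tauto
    rw [hfirst]
    have hR2 : ∑ z ∈ (univ.erase r) \ S0,
        ((∑ e ∈ S0.powersetCard 2, if insert z (S0 \ e) ⊆ S0.erase y then t e else 0) +
          ∑ y' ∈ S0, if S0.erase y' ⊆ S0.erase y then t {z, y'} else 0) =
        ∑ z ∈ (univ.erase r) \ S0, t {y, z} := by
      refine sum_congr rfl fun z hz => ?_
      rw [mem_sdiff] at hz
      rw [hsum (fun y' => t {z, y'})]
      rw [sum_eq_zero, zero_add, pair_comm]
      intro e he
      rw [if_neg]
      intro h
      exact hz.2 (mem_erase.1 (h (mem_insert_self z _))).2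
    rw [hR2]
    have hsplit : (univ.erase r).erase y = S0.erase y ∪ ((univ.erase r) \ S0) := by
      ext x
      simp only [mem_erase, mem_union, mem_sdiff, mem_univ, and_true]
      constructor
      · rintro ⟨h1, h2⟩
        by_cases hx : x ∈ S0
        · exact Or.inl ⟨h1, hx⟩
        · exact Or.inr ⟨h2, hx⟩
      · rintro (⟨h1, h2⟩ | ⟨h1, h2⟩)
        · exact ⟨h1, fun h => hr (h ▸ h2)⟩
        · exact ⟨fun h => h2 (h ▸ hy), h1⟩
    rw [hsplit, sum_union, ← add_assoc, CharTwo.add_self_eq_zero, zero_add]
    rw [disjoint_left]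
    intro x hx hx'
    exact (mem_sdiff.1 hx').2 (mem_erase.1 hx).2
  · obtain ⟨z0, hz0U, hz0S⟩ := not_subset.1 hUS
    have hz0r : z0 ≠ r := fun h => hU (h ▸ hz0U)
    have hno : ∀ y ∈ S0, ¬ S0.erase y ⊆ U := by
      intro y hy h
      have h1 : (S0.erase y).card = S0.card - 1 := card_erase_of_mem hy
      have h2 : S0.erase y = U := eq_of_subset_of_card_le h (by omega)
      rw [← h2] at hz0U
      exact hz0S (mem_erase.1 hz0U).2
    have hA : ∑ y ∈ S0, (if S0.erase y ⊆ U then ∑ z ∈ (univ.erase r).erase y, t {y, z} else 0) = 0 :=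
      sum_eq_zero fun y hy => if_neg (hno y hy)
    rw [hA, add_zero]
    have hB : ∀ z : α, ∑ y ∈ S0, (if S0.erase y ⊆ U then t {z, y} else 0) = 0 := fun z =>
      sum_eq_zero fun y hy => if_neg (hno y hy)
    simp_rw [hB, add_zero]
    rw [sum_comm]
    refine sum_congr rfl fun e he => ?_
    have hec := mem_powersetCard.1 he
    have hcard := card_sdiff_add_card_eq_card hec.1
    have hcond : ∀ z ∈ (univ.erase r) \ S0, (insert z (S0 \ e) ⊆ U ↔ (z = z0 ∧ S0 \ e ⊆ U)) := by
      intro z hz
      rw [mem_sdiff] at hz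
      constructor
      · intro h
        have h1 : S0 \ e ⊆ U := fun x hx => h (mem_insert_of_mem hx)
        refine ⟨?_, h1⟩
        have hzn : z ∉ S0 \ e := fun h => hz.2 (mem_sdiff.1 h).1
        have h2 : (insert z (S0 \ e)).card = (S0 \ e).card + 1 := card_insert_of_notMem hzn
        have h3 : insert z (S0 \ e) = U := eq_of_subset_of_card_le h (by omega)
        rw [← h3, mem_insert] at hz0U
        rcases hz0U with h4 | h4
        · exact h4.symm
        · exact absurd (mem_sdiff.1 h4).1 hz0S
      · rintro ⟨rfl, h⟩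
        exact insert_subset hz0U h
    rw [sum_congr rfl (fun z hz => if_congr (hcond z hz) rfl rfl)]
    by_cases h : S0 \ e ⊆ U
    · simp only [h, and_true, if_true]
      rw [sum_ite_eq' ((univ.erase r) \ S0) z0 (fun _ => t e), if_pos]
      exact mem_sdiff.2 ⟨mem_erase.2 ⟨hz0r, mem_univ _⟩, hz0S⟩
    · simp [h]

end aux

theorem dd_u {α : Type} [Fintype α] [DecidableEq α] {K : Type} [CommRing K] [CharP K 2]
    (r : α) (t : Finset α → K) (S Z : Finset α) (hZ : r ∉ Z) (hS : S.card = Z.card + 4) :
    dd r t (u r (hh r t) S) Z = 0 := by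
  by_cases hr : r ∈ S
  · obtain ⟨S0, hr0, rfl⟩ : ∃ S0, r ∉ S0 ∧ insert r S0 = S := ⟨S.erase r, notMem_erase r S, insert_erase hr⟩
    rw [card_insert_of_notMem hr0] at hS
    have h1 : dd r t (u r (hh r t) (insert r S0)) Z =
        ∑ z ∈ (univ.erase r) \ S0, dd r t (u r t (insert z S0)) Z := by
      unfold dd
      rw [sum_comm]
      refine sum_congr rfl fun e he => ?_
      have hec := mem_powersetCard.1 he
      rw [← mul_sum]
      congr 1
      apply u_split r t S0 (Z ∪ e) hr0
      · rw [mem_union]
        rintro (h | h)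
        · exact hZ h
        · exact (mem_erase.1 (mem_sdiff.1 (hec.1 h)).1).1 rfl
      · have hdis : Disjoint Z e := by
          rw [disjoint_left]
          intro x hx hx'
          exact (mem_sdiff.1 (hec.1 hx')).2 hx
        rw [card_union_of_disjoint hdis, hec.2]
        omega
    rw [h1]
    refine sum_eq_zero fun z hz => ?_
    rw [mem_sdiff, mem_erase] at hz
    apply case1 r t _ Z hZ
    · rw [mem_insert]
      rintro (h | h)
      · exact hz.1.1 h.symm
      · exact hr0 h
    · rw [card_insert_of_notMem hz.2]; omega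
  · have h1 : dd r t (u r (hh r t) S) Z = dd r t (u r t S) Z := by
      unfold dd
      refine sum_congr rfl fun e he => ?_
      rw [u_hh r t S _ hr]
    rw [h1]
    exact case1 r t S Z hZ hr hS

end N4

export N4 (dd_u)

end Pool.Agent.TwoFam
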