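import Pool.Agent.TwoFam.Defs
import Pool.Agent.TwoFam.N3
import Pool.Agent.TwoFam.N4

set_option autoImplicit false
set_option linter.unusedVariables false
set_option linter.unusedSectionVars false

namespace Pool.Agent.TwoFam

open Finset

namespace N5

theorem dd_lin {α : Type} [Fintype α] [DecidableEq α] {K : Type} [CommRing K] (r : α) (t : Finset α → K)
    {X : Type} [Fintype X] (g : X → K) (F : X → Finset α → K) (Z : Finset α) :
    dd r t (fun U => ∑ x, g x * F x U) Z = ∑ x, g x * dd r t (F x) Z := by
  unfold dd
  simp_rw [Finset.mul_sum]
  rw [Finset.sum_comm]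
  refine Finset.sum_congr rfl (fun x _ => Finset.sum_congr rfl (fun e _ => ?_))
  ring

theorem pairT_lin {α : Type} [Fintype α] [DecidableEq α] {K : Type} [CommRing K] (r : α)
    {X : Type} [Fintype X] (g : X → K) (F : X → Finset α → K) (T : Finset α) :
    pairT r T (fun U => ∑ x, g x * F x U) = ∑ x, g x * pairT r T (F x) := by
  unfold pairT
  split_ifs
  · simp_rw [Finset.mul_sum]
    rw [Finset.sum_comm]
  · rfl

theorem dd_ind {α : Type} [Fintype α] [DecidableEq α] {K : Type} [CommRing K] (r : α) (t : Finset α → K)
    (R C : Finset α) (hR : r ∉ R) (hC : r ∉ C) (hc : R.card = C.card + 2) :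
    dd r t (fun U => if U = R then (1 : K) else 0) C = if C ⊆ R then t (R \ C) else 0 := by
  unfold dd
  beta_reduce
  have dis : ∀ e ∈ ((univ.erase r) \ C).powersetCard 2, Disjoint C e := by
    intro e he
    rw [Finset.mem_powersetCard] at he
    rw [Finset.disjoint_left]
    intro x hx hxe
    exact (Finset.mem_sdiff.1 (he.1 hxe)).2 hx
  split_ifs with h
  · rw [Finset.sum_eq_single (R \ C)]
    · rw [Finset.union_sdiff_of_subset h, if_pos rfl, mul_one]
    · intro e he hne
      rw [if_neg, mul_zero]
      intro hh
      apply hne
      rw [← hh, Finset.union_sdiff_left]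
      exact (Finset.sdiff_eq_self_of_disjoint (dis e he).symm).symm
    · intro hn
      exfalso
      apply hn
      rw [Finset.mem_powersetCard]
      refine ⟨?_, ?_⟩
      · intro x hx
        rw [Finset.mem_sdiff] at hx ⊢
        refine ⟨Finset.mem_erase.2 ⟨?_, Finset.mem_univ _⟩, hx.2⟩
        rintro rfl
        exact hR hx.1
      · rw [Finset.card_sdiff_of_subset h]; omega
  · refine Finset.sum_eq_zero (fun e he => ?_)
    rw [if_neg, mul_zero]
    intro hh
    exact h (hh ▸ Finset.subset_union_left)

theorem count_le {α : Type} [Fintype α] [DecidableEq α] {K : Type} [Field K] [CharP K 2]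
    (r : α) (t : Finset α → K) (a b : ℕ) (ha : 2 ≤ a) (hb : 1 ≤ b)
    (hα : Fintype.card α = a + b - 1)
    {ι J : Type} [Fintype ι] [DecidableEq ι] [Fintype J] [DecidableEq J]
    (A B : ι → Finset α) (hA : ∀ i, (A i).card = a) (hB : ∀ i, (B i).card = b)
    (hM : (Matrix.of fun i j => D (hh r t) (A i) (B j)).det ≠ 0)
    (R C : J → Finset α) (hR : ∀ j, r ∉ R j ∧ r ∉ C j ∧ (R j).card + 2 = a ∧ (C j).card + 4 = a)
    (hN : (Matrix.of fun i j => if C j ⊆ R i then t (R i \ C j) else (0 : K)).det ≠ 0) :
    Fintype.card ι + Fintype.card J ≤ (a + b - 2).choose (a - 2) := by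
  classical
  set I : Finset (Finset α) := (univ.erase r).powersetCard (a - 2) with hI
  let F : ι ⊕ J → Finset α → K := Sum.elim (fun i => u r (hh r t) (A i))
    (fun j U => if U = R j then (1 : K) else 0)
  let G : ι ⊕ J → (I → K) := fun x U => F x U.1
  have li : LinearIndependent K G := by
    rw [Fintype.linearIndependent_iff]
    intro g hg
    have hW : ∀ U ∈ I, ∑ x, g x * F x U = 0 := by
      intro U hU
      have := congrFun hg ⟨U, hU⟩
      simpa [Finset.sum_apply, G] using this
    have h1 : ∀ j, g (Sum.inr j) = 0 := by
      have key : Matrix.vecMul (fun j => g (Sum.inr j))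
          (Matrix.of fun i j => if C j ⊆ R i then t (R i \ C j) else (0 : K)) = 0 := by
        funext j'
        have e1 : dd r t (fun U => ∑ x, g x * F x U) (C j') = 0 := by
          unfold dd
          beta_reduce
          refine Finset.sum_eq_zero (fun e he => ?_)
          rw [hW, mul_zero]
          rw [Finset.mem_powersetCard] at he
          rw [hI, Finset.mem_powersetCard]
          constructor
          · intro x hx
            rcases Finset.mem_union.1 hx with h | h
            · exact Finset.mem_erase.2 ⟨fun h' => (hR j').2.1 (h' ▸ h), Finset.mem_univ _⟩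
            · exact (Finset.mem_sdiff.1 (he.1 h)).1
          · rw [Finset.card_union_of_disjoint, he.2]
            · have := (hR j').2.2.2; omega
            · rw [Finset.disjoint_left]
              intro x hx hxe
              exact (Finset.mem_sdiff.1 (he.1 hxe)).2 hx
        rw [dd_lin, Fintype.sum_sum_type] at e1
        have e2 : ∀ i : ι, dd r t (F (Sum.inl i)) (C j') = 0 := fun i =>
          dd_u r t (A i) (C j') (hR j').2.1 (by rw [hA i, (hR j').2.2.2])
        have e3 : ∀ j : J, dd r t (F (Sum.inr j)) (C j') = if C j' ⊆ R j then t (R j \ C j') else 0 :=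
          fun j => dd_ind r t (R j) (C j') (hR j).1 (hR j').2.1 (by
            have h1 := (hR j).2.2.1
            have h2 := (hR j').2.2.2
            omega)
        simp only [e2, e3, mul_zero, Finset.sum_const_zero, zero_add] at e1
        simpa [Matrix.vecMul, dotProduct] using e1
      intro j
      exact congrFun (Matrix.eq_zero_of_vecMul_eq_zero hN key) j
    have h2 : ∀ i, g (Sum.inl i) = 0 := by
      have key : Matrix.vecMul (fun i => g (Sum.inl i))
          (Matrix.of fun i j => D (hh r t) (A i) (B j)) = 0 := by
        funext j'
        have e1 : pairT r (B j') (fun U => ∑ x, g x * F x U) = 0 := by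
          unfold pairT
          have hc : ((B j')ᶜ).card = a - 1 := by
            rw [Finset.card_compl, hα, hB j']; omega
          split_ifs with h
          · refine Finset.sum_eq_zero (fun z hz => ?_)
            apply hW
            rw [hI, Finset.mem_powersetCard]
            constructor
            · intro x hx
              refine Finset.mem_erase.2 ⟨?_, Finset.mem_univ _⟩
              rintro rfl
              exact (Finset.mem_compl.1 (Finset.mem_erase.1 hx).2) h
            · rw [Finset.card_erase_of_mem hz, hc]; omega
          · apply hW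
            rw [hI, Finset.mem_powersetCard]
            constructor
            · intro x hx
              exact Finset.mem_erase.2 ⟨(Finset.mem_erase.1 hx).1, Finset.mem_univ _⟩
            · rw [Finset.card_erase_of_mem (Finset.mem_compl.2 h), hc]; omega
        rw [pairT_lin, Fintype.sum_sum_type] at e1
        have e2 : ∀ i : ι, pairT r (B j') (F (Sum.inl i)) = D (hh r t) (A i) (B j') := fun i =>
          pairT_u r (hh r t) (A i) (B j') a b ha hb hα (hA i) (hB j')
        simp only [e2, h1, zero_mul, Finset.sum_const_zero, add_zero] at e1
        simpa [Matrix.vecMul, dotProduct] using e1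
      intro i
      exact congrFun (Matrix.eq_zero_of_vecMul_eq_zero hM key) i
    rintro (i | j)
    · exact h2 i
    · exact h1 j
  have := li.fintype_card_le_finrank
  rw [Module.finrank_pi, Fintype.card_sum, Fintype.card_coe, hI, Finset.card_powersetCard,
    Finset.card_erase_of_mem (Finset.mem_univ r), Finset.card_univ, hα] at this
  have e : a + b - 1 - 1 = a + b - 2 := by omega
  rwa [e] at this

end N5

export N5 (count_le)

end Pool.Agent.TwoFam
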