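import Pool.Agent.TwoFam.Defs

set_option autoImplicit false
set_option linter.unusedVariables false
set_option linter.unusedSectionVars false

namespace Pool.Agent.TwoFam

open Finset

namespace N6

theorem D_self {α : Type} [Fintype α] [DecidableEq α] {K : Type} [CommRing K]
    (h : Finset α → K) (S T : Finset α) (h2 : (S ∩ T).card = 2) : D h S T = h (S ∩ T) := by
  unfold D
  rw [Finset.sum_eq_single (S ∩ T)]
  · rw [if_pos]
    rw [Finset.disjoint_left]
    intro x hx hxT
    rw [Finset.mem_sdiff, Finset.mem_inter] at hx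
    exact hx.2 ⟨hx.1, hxT⟩
  · intro e he hne
    rw [Finset.mem_powersetCard] at he
    rw [if_neg]
    intro hd
    apply hne
    have hsub : S ∩ T ⊆ e := by
      intro x hx
      rw [Finset.mem_inter] at hx
      by_contra hxe
      exact (Finset.disjoint_left.mp hd) (Finset.mem_sdiff.mpr ⟨hx.1, hxe⟩) hx.2
    exact (Finset.eq_of_subset_of_card_le hsub (by rw [he.2, h2])).symm
  · intro hn
    exfalso
    apply hn
    rw [Finset.mem_powersetCard]
    exact ⟨Finset.inter_subset_left, h2⟩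

theorem D_off {α : Type} [Fintype α] [DecidableEq α] {K : Type} [CommRing K]
    {ι : Type} (r : α) (t : Finset α → K) (A B : ι → Finset α)
    (ht : ∀ e, (∀ k, e ≠ A k ∩ B k) → t e = 0) (S T : Finset α)
    (h3 : ∀ k, ¬ S ∩ T ⊆ A k ∩ B k) (hD : D (hh r t) S T ≠ 0) : r ∈ S ∧ r ∈ T := by
  have ht' : ∀ e, t e ≠ 0 → ∃ k, e = A k ∩ B k := by
    intro e he
    by_contra hcon
    push Not at hcon
    exact he (ht e hcon)
  unfold D at hD
  obtain ⟨e, he, hne⟩ := Finset.exists_ne_zero_of_sum_ne_zero hD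
  rw [Finset.mem_powersetCard] at he
  by_cases hd : Disjoint (S \ e) T
  swap
  · rw [if_neg hd] at hne
    exact absurd rfl hne
  rw [if_pos hd] at hne
  have hsub : S ∩ T ⊆ e := by
    intro x hx
    rw [Finset.mem_inter] at hx
    by_contra hxe
    exact (Finset.disjoint_left.mp hd) (Finset.mem_sdiff.mpr ⟨hx.1, hxe⟩) hx.2
  unfold hh at hne
  by_cases hre : r ∈ e
  swap
  · rw [if_neg hre] at hne
    obtain ⟨k, hk⟩ := ht' e hne
    exact absurd (hk ▸ hsub) (h3 k)
  rw [if_pos hre] at hne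
  have hrS : r ∈ S := he.1 hre
  refine ⟨hrS, ?_⟩
  by_contra hrT
  obtain ⟨y, hy, hy2⟩ := Finset.exists_ne_zero_of_sum_ne_zero hne
  obtain ⟨z, hz, hz2⟩ := Finset.exists_ne_zero_of_sum_ne_zero hy2
  obtain ⟨k, hk⟩ := ht' _ hz2
  apply h3 k
  rw [← hk]
  intro x hx
  have hxe := hsub hx
  have hxr : x ≠ r := by
    rintro rfl
    exact hrT (Finset.mem_inter.mp hx).2
  have hc1 : (e.erase r).card = 1 := by
    rw [Finset.card_erase_of_mem hre, he.2]
  obtain ⟨w, hw⟩ := Finset.card_eq_one.mp hc1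
  have hx1 : x ∈ e.erase r := Finset.mem_erase.mpr ⟨hxr, hxe⟩
  rw [hw, Finset.mem_singleton] at hx1 hy
  rw [hx1, ← hy]
  exact Finset.mem_insert_self _ _

/-- block triangular criterion: `t` is supported on the pairs `A k ∩ B k` -/
theorem block {α : Type} [Fintype α] [DecidableEq α] {K : Type} [CommRing K] [IsDomain K] [CharP K 2]
    {ι : Type} [Fintype ι] [DecidableEq ι] (r : α) (t : Finset α → K) (A B : ι → Finset α)
    (h2 : ∀ i, (A i ∩ B i).card = 2) (h3 : ∀ i j k, i ≠ j → ¬ A i ∩ B j ⊆ A k ∩ B k)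
    (ht : ∀ e, (∀ k, e ≠ A k ∩ B k) → t e = 0)
    (hd : ∀ i, hh r t (A i ∩ B i) ≠ 0)
    (hc : (Matrix.of fun i j : {i : ι // r ∈ A i ∩ B i} =>
      D (hh r t) (A i.1) (B j.1)).det ≠ 0) :
    (Matrix.of fun i j => D (hh r t) (A i) (B j)).det ≠ 0 := by
  intro h0
  obtain ⟨c, hc0, hMc⟩ := Matrix.exists_mulVec_eq_zero_iff.mpr h0
  have hdiag : ∀ i, D (hh r t) (A i) (B i) ≠ 0 := by
    intro i
    rw [D_self _ _ _ (h2 i)]
    exact hd i
  have hoff : ∀ i j, i ≠ j → D (hh r t) (A i) (B j) ≠ 0 → r ∈ A i ∧ r ∈ B j := fun i j hij hD =>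
    D_off r t A B ht (A i) (B j) (fun k => h3 i j k hij) hD
  have hrow : ∀ i, ∑ j, D (hh r t) (A i) (B j) * c j = 0 := by
    intro i
    have := congrFun hMc i
    simpa [Matrix.mulVec, dotProduct] using this
  -- rows with `r ∉ A i`
  have s1 : ∀ i, r ∉ A i → c i = 0 := by
    intro i hi
    have h := hrow i
    rw [Finset.sum_eq_single i] at h
    · rcases mul_eq_zero.mp h with h | h
      · exact absurd h (hdiag i)
      · exact h
    · intro j _ hji
      by_cases hD : D (hh r t) (A i) (B j) = 0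
      · rw [hD, zero_mul]
      · exact absurd (hoff i j (Ne.symm hji) hD).1 hi
    · intro hn
      exact absurd (Finset.mem_univ i) hn
  -- the block
  have s2 : ∀ i, r ∈ A i ∩ B i → c i = 0 := by
    have hblock : (Matrix.of fun i j : {i : ι // r ∈ A i ∩ B i} =>
      D (hh r t) (A i.1) (B j.1)).mulVec (fun j => c j.1) = 0 := by
      funext i
      simp only [Matrix.mulVec, dotProduct, Matrix.of_apply, Pi.zero_apply]
      have h := hrow i.1
      have e1 : ∑ j ∈ Finset.univ.filter (fun j => r ∈ A j ∩ B j),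
          D (hh r t) (A i.1) (B j) * c j =
          ∑ j : {i : ι // r ∈ A i ∩ B i}, D (hh r t) (A i.1) (B j.1) * c j.1 :=
        Finset.sum_subtype _ (by intro x; simp) _
      rw [← e1, ← h]
      refine Finset.sum_subset (Finset.filter_subset _ _) ?_
      intro j _ hj
      have hj' : r ∉ A j ∩ B j := by
        intro hj2
        exact hj (Finset.mem_filter.mpr ⟨Finset.mem_univ _, hj2⟩)
      by_cases hjA : r ∈ A j
      · have hjB : r ∉ B j := fun hB => hj' (Finset.mem_inter.mpr ⟨hjA, hB⟩)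
        by_cases hD : D (hh r t) (A i.1) (B j) = 0
        · rw [hD, zero_mul]
        · have hne : i.1 ≠ j := by
            rintro rfl
            exact hj' i.2
          exact absurd (hoff i.1 j hne hD).2 hjB
      · rw [s1 j hjA, mul_zero]
    by_contra hcon
    push Not at hcon
    obtain ⟨i, hi, hci⟩ := hcon
    apply hc
    rw [← Matrix.exists_mulVec_eq_zero_iff]
    refine ⟨fun j => c j.1, ?_, hblock⟩
    intro hz
    exact hci (congrFun hz ⟨i, hi⟩)
  -- the others
  apply hc0
  funext i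
  by_cases hiA : r ∈ A i
  swap
  · exact s1 i hiA
  by_cases hiB : r ∈ B i
  · exact s2 i (Finset.mem_inter.mpr ⟨hiA, hiB⟩)
  have h := hrow i
  rw [Finset.sum_eq_single i] at h
  · rcases mul_eq_zero.mp h with h | h
    · exact absurd h (hdiag i)
    · exact h
  · intro j _ hji
    by_cases hD : D (hh r t) (A i) (B j) = 0
    · rw [hD, zero_mul]
    · have hjB := (hoff i j (Ne.symm hji) hD).2
      by_cases hjA : r ∈ A j
      · rw [s2 j (Finset.mem_inter.mpr ⟨hjA, hjB⟩), mul_zero]
      · rw [s1 j hjA, mul_zero]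
  · intro hn
    exact absurd (Finset.mem_univ i) hn

end N6

export N6 (block)

end Pool.Agent.TwoFam
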