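import Pool.Agent.TwoFam.Defs

set_option autoImplicit false
set_option linter.unusedVariables false
set_option linter.unusedSectionVars false

namespace Pool.Agent.TwoFam

open Finset

namespace N7

theorem pair_iff {α : Type} [DecidableEq α] (a b r x : α) :
    ({a, b} : Finset α) = {r, x} ↔ s(a, b) = s(r, x) := by
  rw [Sym2.eq_iff]
  constructor
  · intro h
    have ha : a ∈ ({r, x} : Finset α) := by rw [← h]; simp
    have hb : b ∈ ({r, x} : Finset α) := by rw [← h]; simp
    have hr : r ∈ ({a, b} : Finset α) := by rw [h]; simp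
    have hx : x ∈ ({a, b} : Finset α) := by rw [h]; simp
    simp only [Finset.mem_insert, Finset.mem_singleton] at ha hb hr hx
    rcases ha with rfl | rfl
    · rcases hb with rfl | rfl
      · rcases hx with rfl | rfl <;> simp
      · simp
    · rcases hb with rfl | rfl
      · simp
      · rcases hr with rfl | rfl <;> simp
  · rintro (⟨rfl, rfl⟩ | ⟨rfl, rfl⟩)
    · rfl
    · exact Finset.pair_comm _ _

theorem graph_count {α : Type} [DecidableEq α] {G : SimpleGraph α} {r : α} (c : G.Walk r r)
    (hc : c.edges.Nodup) (x : α) (hx : s(r, x) ∈ c.edges) :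
    Odd (c.darts.countP (fun d => decide (({d.fst, d.snd} : Finset α) = {r, x}))) := by
  have h1 : c.darts.countP (fun d => decide (({d.fst, d.snd} : Finset α) = {r, x})) =
      c.edges.count s(r, x) := by
    rw [SimpleGraph.Walk.edges, List.count, List.countP_map]
    apply List.countP_congr
    intro d _
    simp only [decide_eq_true_eq, Function.comp_apply, beq_iff_eq]
    rw [pair_iff]
    rfl
  rw [h1, List.count_eq_one_of_mem hc hx]
  exact odd_one

/-- the adjacency relation of the graph of the pairs in `G` -/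
theorem graph {α : Type} [Fintype α] [DecidableEq α] (G : SimpleGraph α)
    (hcov : ∀ x, ∃ y, G.Adj x y) (x₀ y₀ z₀ : α) (hyz : y₀ ≠ z₀) (h1 : G.Adj x₀ y₀) (h2 : G.Adj x₀ z₀) :
    ∃ r : α, (∀ x, G.Adj r x → ∃ y, y ≠ r ∧ G.Adj x y) ∧
      ((∀ x y, G.Adj r x → G.Adj r y → x = y) ∨
        ∀ x, G.Adj r x → ∃ p : G.Walk r r,
          Odd (p.darts.countP (fun d => decide (({d.fst, d.snd} : Finset α) = {r, x})))) := by
  classical
  -- a longest path
  let P : ℕ → Prop := fun n => ∃ (a b : α) (p : G.Walk a b), p.IsPath ∧ p.length = n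
  have hbd : ∀ n, P n → n < Fintype.card α := by
    rintro n ⟨a, b, p, hp, rfl⟩
    exact hp.length_lt
  have hP2 : P 2 := by
    refine ⟨y₀, z₀, SimpleGraph.Walk.cons h1.symm (SimpleGraph.Walk.cons h2 SimpleGraph.Walk.nil),
      ?_, rfl⟩
    simp only [SimpleGraph.Walk.cons_isPath_iff, SimpleGraph.Walk.support_cons,
      SimpleGraph.Walk.support_nil, List.mem_cons, List.not_mem_nil, or_false]
    exact ⟨⟨SimpleGraph.Walk.IsPath.nil, h2.ne⟩, fun h => by
      rcases h with h | h
      · exact h1.ne h.symm
      · exact hyz h⟩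
  obtain ⟨N, hN, hNmax⟩ : ∃ N, P N ∧ ∀ m, P m → m ≤ N := by
    have hne : ((Finset.range (Fintype.card α)).filter P).Nonempty :=
      ⟨2, by simp only [Finset.mem_filter, Finset.mem_range]; exact ⟨hbd 2 hP2, hP2⟩⟩
    obtain ⟨N, hN, hmax⟩ := Finset.exists_max_image _ (fun n => n) hne
    refine ⟨N, (Finset.mem_filter.mp hN).2, ?_⟩
    intro m hm
    exact hmax m (by simp only [Finset.mem_filter, Finset.mem_range]; exact ⟨hbd m hm, hm⟩)
  have hN2 : 2 ≤ N := hNmax 2 hP2
  obtain ⟨r, b, p, hp, hpl⟩ := hN
  cases p with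
  | nil => simp at hpl; omega
  | @cons _ v1 _ h' p' =>
    rw [SimpleGraph.Walk.length_cons] at hpl
    rw [SimpleGraph.Walk.cons_isPath_iff] at hp
    obtain ⟨hp', hr⟩ := hp
    -- all neighbours of r are in p'
    have hnb : ∀ x, G.Adj r x → x ∈ p'.support := by
      intro x hx
      by_contra hxs
      have hpath : (SimpleGraph.Walk.cons hx.symm (SimpleGraph.Walk.cons h' p')).IsPath := by
        rw [SimpleGraph.Walk.cons_isPath_iff, SimpleGraph.Walk.cons_isPath_iff]
        refine ⟨⟨hp', hr⟩, ?_⟩
        rw [SimpleGraph.Walk.support_cons, List.mem_cons]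
        rintro (h | h)
        · exact hx.ne h.symm
        · exact hxs h
      have := hNmax _ ⟨_, _, _, hpath, rfl⟩
      simp only [SimpleGraph.Walk.length_cons] at this
      omega
    have hone : ∀ x, G.Adj r x → ∃ y, y ≠ r ∧ G.Adj x y := by
      intro x hx
      by_cases hxv : x = v1
      · subst hxv
        cases p' with
        | nil => simp at hpl; omega
        | @cons _ v2 _ h'' p'' =>
          refine ⟨v2, ?_, h''⟩
          rintro rfl
          apply hr
          simp
      · have hxs := hnb x hx
        have hnn : ¬ (p'.takeUntil x hxs).Nil := by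
          intro hnil
          exact hxv hnil.eq.symm
        refine ⟨(p'.takeUntil x hxs).penultimate, ?_,
          ((p'.takeUntil x hxs).adj_penultimate hnn).symm⟩
        intro hpen
        apply hr
        apply SimpleGraph.Walk.support_takeUntil_subset p' hxs
        rw [← hpen]
        exact SimpleGraph.Walk.getVert_mem_support _ _
    have hcyc : ∀ x, G.Adj r x → x ≠ v1 → ∃ c : G.Walk r r, c.edges.Nodup ∧
        s(r, x) ∈ c.edges ∧ s(r, v1) ∈ c.edges := by
      intro x hx hxv
      have hxs := hnb x hx
      have hq' : (p'.takeUntil x hxs).IsPath := hp'.takeUntil hxs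
      have hrq : r ∉ (p'.takeUntil x hxs).support := fun h =>
        hr (SimpleGraph.Walk.support_takeUntil_subset p' hxs h)
      have hQ : (SimpleGraph.Walk.cons h' (p'.takeUntil x hxs)).IsPath := by
        rw [SimpleGraph.Walk.cons_isPath_iff]
        exact ⟨hq', hrq⟩
      have hne : s(r, x) ∉ (SimpleGraph.Walk.cons h' (p'.takeUntil x hxs)).edges := by
        rw [SimpleGraph.Walk.edges_cons, List.mem_cons]
        rintro (h | h)
        · rw [Sym2.eq_iff] at h
          rcases h with ⟨_, h⟩ | ⟨h3, h4⟩
          · exact hxv h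
          · exact hx.ne h4.symm
        · exact hrq (SimpleGraph.Walk.fst_mem_support_of_mem_edges _ h)
      have hcy : (SimpleGraph.Walk.cons hx
          (SimpleGraph.Walk.cons h' (p'.takeUntil x hxs)).reverse).IsCycle := by
        rw [SimpleGraph.Walk.cons_isCycle_iff]
        refine ⟨hQ.reverse, ?_⟩
        rw [SimpleGraph.Walk.edges_reverse, List.mem_reverse]
        exact hne
      refine ⟨_, hcy.isTrail.edges_nodup, ?_, ?_⟩
      · rw [SimpleGraph.Walk.edges_cons]
        exact List.mem_cons_self
      · rw [SimpleGraph.Walk.edges_cons, SimpleGraph.Walk.edges_reverse, List.mem_cons,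
          List.mem_reverse, SimpleGraph.Walk.edges_cons]
        exact Or.inr List.mem_cons_self
    refine ⟨r, hone, ?_⟩
    by_cases huniq : ∀ x, G.Adj r x → x = v1
    · left
      intro x y hx hy
      rw [huniq x hx, huniq y hy]
    · right
      push Not at huniq
      obtain ⟨w, hw, hwv⟩ := huniq
      intro x hx
      by_cases hxv : x = v1
      · subst hxv
        obtain ⟨c, hc, _, h3⟩ := hcyc w hw hwv
        exact ⟨c, graph_count c hc x h3⟩
      · obtain ⟨c, hc, h3, _⟩ := hcyc x hx hxv
        exact ⟨c, graph_count c hc x h3⟩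

end N7

export N7 (graph)

end Pool.Agent.TwoFam
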