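import Pool.Agent.TwoFam.Defs

set_option autoImplicit false
set_option linter.unusedVariables false
set_option linter.unusedSectionVars false

namespace Pool.Agent.TwoFam

open Finset

namespace N8

theorem walk_one {α : Type} [Fintype α] [DecidableEq α] {v v' : α} (h : v ≠ v') (x : α) :
    (∑ z ∈ univ.erase x, (if (({v, v'} : Finset α) = {x, z}) then (1 : ZMod 2) else 0))
      = (if x = v then 1 else 0) + (if x = v' then 1 else 0) := by
  by_cases h1 : x = v
  · subst h1
    rw [if_pos rfl, if_neg h, add_zero]
    rw [Finset.sum_eq_single v']
    · simp
    · intro z hz hzv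
      rw [if_neg]
      intro he
      have : v' ∈ ({x, z} : Finset α) := by rw [← he]; simp
      simp only [Finset.mem_insert, Finset.mem_singleton] at this
      rcases this with h2 | h2
      · exact h h2.symm
      · exact hzv h2.symm
    · intro hn
      exact absurd (Finset.mem_erase.mpr ⟨h.symm, Finset.mem_univ _⟩) hn
  · by_cases h2 : x = v'
    · subst h2
      rw [if_neg h1, if_pos rfl, zero_add]
      rw [Finset.sum_eq_single v]
      · rw [if_pos (Finset.pair_comm v x)]
      · intro z hz hzv
        rw [if_neg]
        intro he
        have : v ∈ ({x, z} : Finset α) := by rw [← he]; simp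
        simp only [Finset.mem_insert, Finset.mem_singleton] at this
        rcases this with h3 | h3
        · exact h h3
        · exact hzv h3.symm
      · intro hn
        exact absurd (Finset.mem_erase.mpr ⟨h, Finset.mem_univ _⟩) hn
    · rw [if_neg h1, if_neg h2, add_zero]
      apply Finset.sum_eq_zero
      intro z hz
      rw [if_neg]
      intro he
      have : x ∈ ({v, v'} : Finset α) := by rw [he]; simp
      simp only [Finset.mem_insert, Finset.mem_singleton] at this
      rcases this with h3 | h3
      · exact h1 h3
      · exact h2 h3

theorem walk_gen {α : Type} [Fintype α] [DecidableEq α] (G : SimpleGraph α) {v w : α} (p : G.Walk v w)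
    (x : α) :
    (∑ z ∈ univ.erase x,
      ((p.darts.countP (fun d => decide (({d.fst, d.snd} : Finset α) = {x, z})) : ℕ) : ZMod 2))
      = (if x = v then 1 else 0) + (if x = w then 1 else 0) := by
  induction p with
  | nil =>
    simp only [SimpleGraph.Walk.darts_nil, List.countP_nil, Nat.cast_zero, Finset.sum_const_zero]
    split_ifs
    · decide
    · decide
  | @cons a b c hab q ih =>
    have e : ∀ z ∈ univ.erase x,
        ((((SimpleGraph.Walk.cons hab q).darts.countP
          (fun d => decide (({d.fst, d.snd} : Finset α) = {x, z})) : ℕ)) : ZMod 2)
        = ((q.darts.countP (fun d => decide (({d.fst, d.snd} : Finset α) = {x, z})) : ℕ) : ZMod 2)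
          + (if (({a, b} : Finset α) = {x, z}) then (1 : ZMod 2) else 0) := by
      intro z _
      rw [SimpleGraph.Walk.darts_cons, List.countP_cons]
      push_cast
      congr 1
      simp
    rw [Finset.sum_congr rfl e, Finset.sum_add_distrib, ih, walk_one hab.ne x]
    have h2 : ∀ y : ZMod 2, y + y = 0 := by decide
    generalize (if x = b then (1 : ZMod 2) else 0) = B
    generalize (if x = c then (1 : ZMod 2) else 0) = C
    generalize (if x = a then (1 : ZMod 2) else 0) = A
    have := h2 B
    linear_combination this

/-- closed walks give even functions -/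
theorem walk_even {α : Type} [Fintype α] [DecidableEq α] (G : SimpleGraph α) {r : α} (p : G.Walk r r)
    (x : α) :
    (∑ z ∈ univ.erase x,
      ((p.darts.countP (fun d => decide (({d.fst, d.snd} : Finset α) = {x, z})) : ℕ) : ZMod 2)) = 0 := by
  rw [walk_gen G p x]
  split_ifs
  · decide
  · decide

end N8

export N8 (walk_even)

end Pool.Agent.TwoFam
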