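import Pool.Agent.TwoFam.Defs

set_option autoImplicit false
set_option linter.unusedVariables false
set_option linter.unusedSectionVars false

namespace Pool.Agent.TwoFam

open Finset

namespace P1

theorem hd_ne {α : Type} [Fintype α] [DecidableEq α] {ι : Type} (r : α) (A B : ι → Finset α)
    (h2 : ∀ i, (A i ∩ B i).card = 2) (i : ι)
    (h : ∀ x, x ≠ r → A i ∩ B i = {r, x} → ∃ y, y ≠ r ∧ y ≠ x ∧ ∃ k, ({x, y} : Finset α) = A k ∩ B k) :
    hh r (tt A B) (A i ∩ B i) ≠ 0 := by
  classical
  by_cases hr : r ∈ A i ∩ B i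
  · obtain ⟨x, hx⟩ : ∃ x, (A i ∩ B i).erase r = {x} := by
      apply Finset.card_eq_one.1
      rw [Finset.card_erase_of_mem hr, h2 i]
    have hxr : x ≠ r := by
      have : x ∈ (A i ∩ B i).erase r := by rw [hx]; simp
      exact (Finset.mem_erase.1 this).1
    have he : A i ∩ B i = {r, x} := by
      rw [← Finset.insert_erase hr, hx]
    obtain ⟨y, hyr, hyx, k, hk⟩ := h x hxr he
    intro h0
    unfold hh at h0
    rw [if_pos hr, hx, Finset.sum_singleton] at h0
    have h1 := congrArg (MvPolynomial.eval (fun U : Finset α => if U = ({x, y} : Finset α) then (1 : ZMod 2) else 0)) h0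
    rw [map_zero, map_sum] at h1
    rw [Finset.sum_eq_single y] at h1
    · unfold tt at h1
      rw [if_pos ⟨k, hk⟩, MvPolynomial.eval_X, if_pos rfl] at h1
      exact one_ne_zero h1
    · intro z hz hzy
      unfold tt
      split_ifs with hc
      · rw [MvPolynomial.eval_X, if_neg]
        intro heq
        have hzx : z ≠ x := (Finset.mem_erase.1 hz).1
        have : z ∈ ({x, y} : Finset α) := by rw [← heq]; simp
        rcases Finset.mem_insert.1 this with h5 | h5
        · exact hzx h5
        · exact hzy (Finset.mem_singleton.1 h5)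
      · exact map_zero _
    · intro hy
      exact absurd (Finset.mem_erase.2 ⟨hyx, Finset.mem_erase.2 ⟨hyr, Finset.mem_univ _⟩⟩) hy
  · unfold hh
    rw [if_neg hr]
    unfold tt
    rw [if_pos ⟨i, rfl⟩]
    exact MvPolynomial.X_ne_zero _

end P1

export P1 (hd_ne)

end Pool.Agent.TwoFam
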