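import Pool.Agent.TwoFam.Defs

set_option autoImplicit false
set_option linter.unusedVariables false
set_option linter.unusedSectionVars false

namespace Pool.Agent.TwoFam

open Finset

namespace P2

theorem gamma_left_disj {α : Type} [DecidableEq α] (S T e : Finset α) :
    Disjoint (S \ e) T ↔ S ∩ T ⊆ e := by
  rw [Finset.disjoint_left]
  constructor
  · intro h x hx
    rw [Finset.mem_inter] at hx
    by_contra hxe
    exact h (Finset.mem_sdiff.mpr ⟨hx.1, hxe⟩) hx.2
  · intro h x hx hxT
    rw [Finset.mem_sdiff] at hx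
    exact hx.2 (h (Finset.mem_inter.mpr ⟨hx.1, hxT⟩))

theorem gamma_left {α : Type} [Fintype α] [DecidableEq α] {K : Type} [CommRing K] [IsDomain K]
    {ι : Type} [Fintype ι] [DecidableEq ι] (r : α) (h : Finset α → K) (A B : ι → Finset α)
    (h2 : ∀ i, (A i ∩ B i).card = 2) (h3 : ∀ i j k, i ≠ j → ¬ A i ∩ B j ⊆ A k ∩ B k)
    (hd : ∀ i, h (A i ∩ B i) ≠ 0)
    (heq : ∀ i j, r ∈ A i ∩ B i → r ∈ A j ∩ B j → A i ∩ B i = A j ∩ B j) :
    (Matrix.of fun i j : {i : ι // r ∈ A i ∩ B i} => D h (A i.1) (B j.1)).det ≠ 0 := by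
  have hM : (Matrix.of fun i j : {i : ι // r ∈ A i ∩ B i} => D h (A i.1) (B j.1)) =
      Matrix.diagonal (fun i : {i : ι // r ∈ A i ∩ B i} => h (A i.1 ∩ B i.1)) := by
    ext i j
    rw [Matrix.of_apply]
    by_cases hij : i = j
    · subst hij
      rw [Matrix.diagonal_apply_eq]
      unfold D
      rw [Finset.sum_eq_single (A i.1 ∩ B i.1)]
      · rw [if_pos]
        rw [gamma_left_disj]
      · intro e he hne
        rw [Finset.mem_powersetCard] at he
        rw [if_neg]
        intro hdis
        rw [gamma_left_disj] at hdis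
        exact hne (Finset.eq_of_subset_of_card_le hdis (by rw [he.2, h2 i.1])).symm
      · intro hnot
        exfalso
        apply hnot
        rw [Finset.mem_powersetCard]
        exact ⟨Finset.inter_subset_left, h2 i.1⟩
    · rw [Matrix.diagonal_apply_ne _ hij]
      unfold D
      apply Finset.sum_eq_zero
      intro e he
      rw [Finset.mem_powersetCard] at he
      rw [if_neg]
      intro hdis
      rw [gamma_left_disj] at hdis
      have h4 : A i.1 ∩ B i.1 = A j.1 ∩ B j.1 := heq i.1 j.1 i.2 j.2
      have h5 : A i.1 ∩ B i.1 ⊆ A i.1 ∩ B j.1 := by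
        apply Finset.subset_inter Finset.inter_subset_left
        rw [h4]
        exact Finset.inter_subset_right
      have h6 : A i.1 ∩ B i.1 = e :=
        Finset.eq_of_subset_of_card_le (h5.trans hdis) (by rw [he.2, h2 i.1])
      have hne : i.1 ≠ j.1 := fun h => hij (Subtype.ext h)
      exact h3 i.1 j.1 i.1 hne (by rw [h6]; exact hdis)
  rw [hM, Matrix.det_diagonal]
  exact Finset.prod_ne_zero_iff.mpr (fun i _ => hd i.1)

end P2

export P2 (gamma_left)

end Pool.Agent.TwoFam
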