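import Pool.Agent.TwoFam.Defs

set_option autoImplicit false
set_option linter.unusedVariables false
set_option linter.unusedSectionVars false

namespace Pool.Agent.TwoFam

open Finset

namespace P3

theorem gamma_right {α : Type} [Fintype α] [DecidableEq α]
    {ι : Type} [Fintype ι] [DecidableEq ι] (r : α) (A B : ι → Finset α)
    (h2 : ∀ i, (A i ∩ B i).card = 2) (h3 : ∀ i j k, i ≠ j → ¬ A i ∩ B j ⊆ A k ∩ B k)
    (hc : ∀ x, x ≠ r → (∃ k, ({r, x} : Finset α) = A k ∩ B k) → ∃ c : Finset α → ZMod 2,
      (∀ e, (∀ k, e ≠ A k ∩ B k) → c e = 0) ∧ (∀ x', ∑ z ∈ univ.erase x', c {x', z} = 0) ∧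
      c {r, x} = 1) :
    (Matrix.of fun i j : {i : ι // r ∈ A i ∩ B i} => D (hh r (tt A B)) (A i.1) (B j.1)).det ≠ 0 := by
  classical
  choose! c hc1 hc2 hc3 using hc
  set P : α → Prop := fun x => x ≠ r ∧ ∃ k, ({r, x} : Finset α) = A k ∩ B k with hP
  let E : Finset α → MvPolynomial α (ZMod 2) := fun e =>
    ∑ x ∈ univ.filter P, MvPolynomial.X x * MvPolynomial.C (c x e)
  have hE0 : ∀ e, (∀ k, e ≠ A k ∩ B k) → E e = 0 := by
    intro e he
    apply Finset.sum_eq_zero
    intro x hx
    have hx' : P x := (Finset.mem_filter.mp hx).2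
    rw [hc1 x hx'.1 hx'.2 e he, map_zero, mul_zero]
  have hEs : ∀ x', ∑ z ∈ univ.erase x', E {x', z} = 0 := by
    intro x'
    show ∑ z ∈ univ.erase x', ∑ x ∈ univ.filter P,
      MvPolynomial.X x * MvPolynomial.C (c x {x', z}) = 0
    rw [Finset.sum_comm]
    apply Finset.sum_eq_zero
    intro x hx
    have hx' : P x := (Finset.mem_filter.mp hx).2
    rw [← Finset.mul_sum, ← map_sum, hc2 x hx'.1 hx'.2 x', map_zero, mul_zero]
  have hE1 : ∀ x, P x → E {r, x} ≠ 0 := by
    intro x hx h0
    have h1 : MvPolynomial.eval (fun y => if y = x then (1 : ZMod 2) else 0) (E {r, x}) = 1 := by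
      show MvPolynomial.eval _ (∑ y ∈ univ.filter P,
        MvPolynomial.X y * MvPolynomial.C (c y {r, x})) = 1
      rw [map_sum, Finset.sum_eq_single x]
      · simp [hc3 x hx.1 hx.2]
      · intro y hy hyx
        simp [hyx]
      · intro hx2
        exact absurd (Finset.mem_filter.mpr ⟨mem_univ _, hx⟩) hx2
    rw [h0, map_zero] at h1
    exact zero_ne_one h1
  let φ : MvPolynomial (Finset α) (ZMod 2) →+* MvPolynomial α (ZMod 2) :=
    MvPolynomial.eval₂Hom MvPolynomial.C E
  have hφ : ∀ e, φ (tt A B e) = E e := by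
    intro e
    unfold tt
    split_ifs with h
    · exact MvPolynomial.eval₂Hom_X' _ _ _
    · rw [map_zero, hE0]
      intro k hk
      exact h ⟨k, hk⟩
  have hφh : ∀ e, φ (hh r (tt A B) e) = hh r E e := by
    intro e
    unfold hh
    split_ifs with h
    · rw [map_sum]
      apply Finset.sum_congr rfl
      intro y hy
      rw [map_sum]
      apply Finset.sum_congr rfl
      intro z hz
      exact hφ _
    · exact hφ _
  have hhE : ∀ e : Finset α, e.card = 2 → hh r E e = E e := by
    intro e he
    unfold hh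
    split_ifs with h
    · obtain ⟨x, hx⟩ : ∃ x, e.erase r = {x} := by
        rw [← Finset.card_eq_one, Finset.card_erase_of_mem h, he]
      rw [hx, Finset.sum_singleton]
      have hxr : x ≠ r := by
        have : x ∈ e.erase r := by rw [hx]; exact Finset.mem_singleton_self x
        exact Finset.ne_of_mem_erase this
      have he2 : e = {x, r} := by
        rw [← Finset.insert_erase h, hx, Finset.pair_comm]
      have h0 := hEs x
      have h1 : r ∈ (univ : Finset α).erase x := by simp [hxr.symm]
      rw [← Finset.add_sum_erase _ _ h1, Finset.erase_right_comm, ← he2] at h0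
      exact (CharTwo.add_eq_zero.mp h0).symm
    · rfl
  have hD : ∀ S T : Finset α, φ (D (hh r (tt A B)) S T) =
      ∑ e ∈ S.powersetCard 2, if Disjoint (S \ e) T then E e else 0 := by
    intro S T
    unfold D
    rw [map_sum]
    apply Finset.sum_congr rfl
    intro e he
    split_ifs with h
    · rw [hφh, hhE e (Finset.mem_powersetCard.mp he).2]
    · exact map_zero _
  have hsub : ∀ (S T e : Finset α), Disjoint (S \ e) T → S ∩ T ⊆ e := by
    intro S T e h x hx
    by_contra hxe
    exact (Finset.disjoint_left.mp h) (Finset.mem_sdiff.mpr ⟨(Finset.mem_inter.mp hx).1, hxe⟩)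
      (Finset.mem_inter.mp hx).2
  intro hdet
  have h1 := congrArg φ hdet
  rw [map_zero, RingHom.map_det] at h1
  have hM : φ.mapMatrix (Matrix.of fun i j : {i : ι // r ∈ A i ∩ B i} =>
      D (hh r (tt A B)) (A i.1) (B j.1)) =
      Matrix.diagonal (fun i : {i : ι // r ∈ A i ∩ B i} => E (A i.1 ∩ B i.1)) := by
    ext1 i j
    rw [RingHom.mapMatrix_apply, Matrix.map_apply, Matrix.of_apply, hD]
    by_cases hij : i = j
    · subst hij
      rw [Matrix.diagonal_apply_eq, Finset.sum_eq_single (A i.1 ∩ B i.1)]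
      · rw [if_pos]
        rw [Finset.disjoint_left]
        intro x hx hxB
        rw [Finset.mem_sdiff, Finset.mem_inter] at hx
        exact hx.2 ⟨hx.1, hxB⟩
      · intro e he hne
        rw [if_neg]
        intro hd
        have h3 := hsub _ _ _ hd
        exact hne (Finset.eq_of_subset_of_card_le h3
          (by rw [(Finset.mem_powersetCard.mp he).2, h2])).symm
      · intro hn
        exact absurd (Finset.mem_powersetCard.mpr ⟨Finset.inter_subset_left, h2 _⟩) hn
    · rw [Matrix.diagonal_apply_ne _ hij]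
      apply Finset.sum_eq_zero
      intro e he
      split_ifs with hd
      · apply hE0
        intro k hk
        have h4 := hsub _ _ _ hd
        rw [hk] at h4
        exact h3 i.1 j.1 k (fun h => hij (Subtype.ext h)) h4
      · rfl
  rw [hM, Matrix.det_diagonal, Finset.prod_eq_zero_iff] at h1
  obtain ⟨i, -, hi⟩ := h1
  obtain ⟨x, hx⟩ : ∃ x, (A i.1 ∩ B i.1).erase r = {x} := by
    rw [← Finset.card_eq_one, Finset.card_erase_of_mem i.2, h2]
  have hxr : x ≠ r := by
    have : x ∈ (A i.1 ∩ B i.1).erase r := by rw [hx]; exact Finset.mem_singleton_self x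
    exact Finset.ne_of_mem_erase this
  have he2 : ({r, x} : Finset α) = A i.1 ∩ B i.1 := by
    rw [← Finset.insert_erase i.2, hx]
  exact hE1 x ⟨hxr, i.1, he2⟩ (by rw [he2]; exact hi)

end P3

export P3 (gamma_right)

end Pool.Agent.TwoFam
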