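import Pool.Agent.TwoFam.Defs

set_option autoImplicit false
set_option linter.unusedVariables false
set_option linter.unusedSectionVars false

namespace Pool.Agent.TwoFam

open Finset

namespace P4

theorem even_card {α : Type} [Fintype α] [DecidableEq α] {ι : Type} [Fintype ι] (P : ι → Finset α)
    (h2 : ∀ i, (P i).card = 2) (hcov : ∀ x, ∃ k, x ∈ P k)
    (hdis : ∀ k l, P k ≠ P l → Disjoint (P k) (P l)) : Even (Fintype.card α) := by
  have huniv : (univ : Finset α) = (univ.image P).biUnion id := by
    ext x
    simp only [mem_univ, mem_biUnion, mem_image, true_and, id, true_iff]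
    obtain ⟨k, hk⟩ := hcov x
    exact ⟨P k, ⟨k, rfl⟩, hk⟩
  have hcard : (univ : Finset α).card = ∑ e ∈ univ.image P, e.card := by
    rw [huniv]
    refine Finset.card_biUnion fun e he f hf hef => ?_
    rw [mem_coe, mem_image] at he hf
    obtain ⟨k, -, rfl⟩ := he
    obtain ⟨l, -, rfl⟩ := hf
    exact hdis k l hef
  have h3 : ∑ e ∈ univ.image P, e.card = ∑ _e ∈ univ.image P, 2 := by
    refine Finset.sum_congr rfl fun e he => ?_
    rw [mem_image] at he
    obtain ⟨k, -, rfl⟩ := he
    exact h2 k
  rw [← Finset.card_univ, hcard, h3, Finset.sum_const, smul_eq_mul]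
  exact ⟨(univ.image P).card, by ring⟩

end P4

export P4 (even_card)

end Pool.Agent.TwoFam
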