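import Pool.Agent.TwoFam.Defs

set_option autoImplicit false
set_option linter.unusedVariables false
set_option linter.unusedSectionVars false

namespace Pool.Agent.TwoFam

open Finset

namespace P5

theorem reduce {β ι : Type} [DecidableEq β] (A B : ι → Finset β) (X : Finset β) (m : ℕ)
    (hX : ∀ i, A i ∪ B i ⊆ X) (hm : X.card ≤ m) (hm0 : 0 < m) :
    ∃ f : β → Fin m,
      (∀ i, ((A i).image f).card = (A i).card) ∧ (∀ i, ((B i).image f).card = (B i).card) ∧
      (∀ i j, (A i).image f ∩ (B j).image f = (A i ∩ B j).image f) ∧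
      (∀ i j, ((A i ∩ B j).image f).card = (A i ∩ B j).card) ∧
      (∀ i j k, (A i ∩ B j).image f ⊆ (A k ∩ B k).image f → A i ∩ B j ⊆ A k ∩ B k) ∧
      (∀ k l, (A k ∩ B k).image f = (A l ∩ B l).image f → A k ∩ B k = A l ∩ B l) ∧
      (∀ x ∈ X, (∀ k, x ∉ A k ∩ B k) → ∀ k, f x ∉ (A k ∩ B k).image f) ∧
      (X.card < m → ∃ y : Fin m, ∀ k, y ∉ (A k ∩ B k).image f) := by
  classical
  have hA : ∀ i, A i ⊆ X := fun i x hx => hX i (Finset.mem_union_left _ hx)
  have hB : ∀ i, B i ⊆ X := fun i x hx => hX i (Finset.mem_union_right _ hx)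
  obtain ⟨f, hf⟩ : ∃ f : β → Fin m, Set.InjOn f (X : Set β) := by
    refine ⟨fun x => if hx : x ∈ X then Fin.castLE hm (X.equivFin ⟨x, hx⟩) else ⟨0, hm0⟩, ?_⟩
    intro x hx y hy hxy
    have hx' : x ∈ X := hx
    have hy' : y ∈ X := hy
    simp only [hx', hy', dite_true] at hxy
    have h1 := Fin.castLE_injective hm hxy
    have h2 := X.equivFin.injective h1
    simpa using h2
  have hsub : ∀ (P Q : Finset β), P ⊆ X → Q ⊆ X → P.image f ⊆ Q.image f → P ⊆ Q := by
    intro P Q hP hQ h x hx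
    have h1 : f x ∈ Q.image f := h (Finset.mem_image_of_mem f hx)
    obtain ⟨y, hy, hyx⟩ := Finset.mem_image.1 h1
    have : y = x := hf (Finset.mem_coe.2 (hQ hy)) (Finset.mem_coe.2 (hP hx)) hyx
    rwa [← this]
  have hAB : ∀ i j, A i ∩ B j ⊆ X := fun i j x hx => hA i (Finset.mem_inter.1 hx).1
  refine ⟨f, ?_, ?_, ?_, ?_, ?_, ?_, ?_, ?_⟩
  · intro i
    exact Finset.card_image_of_injOn (hf.mono (by exact_mod_cast hA i))
  · intro i
    exact Finset.card_image_of_injOn (hf.mono (by exact_mod_cast hB i))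
  · intro i j
    refine (Finset.image_inter_of_injOn _ _ ?_).symm
    refine hf.mono ?_
    intro x hx
    rcases hx with hx | hx
    · exact Finset.mem_coe.2 (hA i (Finset.mem_coe.1 hx))
    · exact Finset.mem_coe.2 (hB j (Finset.mem_coe.1 hx))
  · intro i j
    exact Finset.card_image_of_injOn (hf.mono (by exact_mod_cast hAB i j))
  · intro i j k h
    exact hsub _ _ (hAB i j) (hAB k k) h
  · intro k l h
    exact Finset.Subset.antisymm (hsub _ _ (hAB k k) (hAB l l) h.le)
      (hsub _ _ (hAB l l) (hAB k k) h.ge)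
  · intro x hx hxk k hmem
    obtain ⟨y, hy, hyx⟩ := Finset.mem_image.1 hmem
    have : y = x := hf (Finset.mem_coe.2 (hAB k k hy)) (Finset.mem_coe.2 hx) hyx
    exact hxk k (this ▸ hy)
  · intro hlt
    have h1 : (X.image f).card < (Finset.univ : Finset (Fin m)).card := by
      rw [Finset.card_univ, Fintype.card_fin]
      exact lt_of_le_of_lt Finset.card_image_le hlt
    obtain ⟨y, -, hy⟩ := Finset.exists_mem_notMem_of_card_lt_card h1
    refine ⟨y, fun k hk => hy ?_⟩
    obtain ⟨z, hz, hzy⟩ := Finset.mem_image.1 hk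
    exact Finset.mem_image.2 ⟨z, hAB k k hz, hzy⟩

end P5

export P5 (reduce)

end Pool.Agent.TwoFam
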