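import Pool.Agent.TwoFam.Defs
import Pool.Agent.TwoFam.N6
import Pool.Agent.TwoFam.N7
import Pool.Agent.TwoFam.N8
import Pool.Agent.TwoFam.P1
import Pool.Agent.TwoFam.P2
import Pool.Agent.TwoFam.P3

set_option autoImplicit false
set_option linter.unusedVariables false
set_option linter.unusedSectionVars false

namespace Pool.Agent.TwoFam

open Finset

namespace Q1

theorem special_pair {α : Type} [DecidableEq α] (e : Finset α) (he : e.card = 2) (x : α) (hx : x ∈ e) :
    ∃ y, y ≠ x ∧ e = {x, y} := by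
  obtain ⟨a, b, hab, rfl⟩ := Finset.card_eq_two.1 he
  rcases Finset.mem_insert.1 hx with h | h
  · subst h; exact ⟨b, hab.symm, rfl⟩
  · rw [Finset.mem_singleton] at h
    subst h; exact ⟨a, hab, Finset.pair_comm _ _⟩

theorem special_ht {α : Type} [Fintype α] [DecidableEq α] {ι : Type} (A B : ι → Finset α) :
    ∀ e, (∀ k, e ≠ A k ∩ B k) → tt A B e = 0 := by
  intro e he
  unfold tt
  rw [if_neg]
  rintro ⟨k, hk⟩
  exact he k hk

theorem special {α : Type} [Fintype α] [DecidableEq α]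
    {ι : Type} [Fintype ι] [DecidableEq ι] (A B : ι → Finset α)
    (h2 : ∀ i, (A i ∩ B i).card = 2) (h3 : ∀ i j k, i ≠ j → ¬ A i ∩ B j ⊆ A k ∩ B k)
    (hcase : (∃ x, ∀ k, x ∉ A k ∩ B k) ∨
      ∃ k l, A k ∩ B k ≠ A l ∩ B l ∧ ¬ Disjoint (A k ∩ B k) (A l ∩ B l)) :
    ∃ r : α, (Matrix.of fun i j => D (hh r (tt A B)) (A i) (B j)).det ≠ 0 := by
  classical
  by_cases hcov : ∃ x, ∀ k, x ∉ A k ∩ B k
  · obtain ⟨r, hr⟩ := hcov
    refine ⟨r, block r (tt A B) A B h2 h3 (special_ht A B) (fun i => hd_ne r A B h2 i ?_) ?_⟩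
    · intro x _ he
      exact absurd (show r ∈ A i ∩ B i by rw [he]; simp) (hr i)
    · haveI : IsEmpty {i : ι // r ∈ A i ∩ B i} := ⟨fun i => hr i.1 i.2⟩
      rw [Matrix.det_isEmpty]
      exact one_ne_zero
  · have hcov' : ∀ x, ∃ k, x ∈ A k ∩ B k := by
      intro x
      by_contra hx
      exact hcov ⟨x, fun k hk => hx ⟨k, hk⟩⟩
    obtain ⟨k, l, hkl, hnd⟩ := hcase.resolve_left hcov
    let G : SimpleGraph α :=
      { Adj := fun x y => x ≠ y ∧ ∃ k, ({x, y} : Finset α) = A k ∩ B k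
        symm := by
          constructor
          rintro x y ⟨hxy, k, hk⟩
          exact ⟨hxy.symm, k, by rw [Finset.pair_comm]; exact hk⟩
        loopless := by
          constructor
          rintro x ⟨hx, -⟩
          exact hx rfl }
    have hG : ∀ x y, G.Adj x y ↔ (x ≠ y ∧ ∃ k, ({x, y} : Finset α) = A k ∩ B k) := fun x y => Iff.rfl
    have hcovG : ∀ x, ∃ y, G.Adj x y := by
      intro x
      obtain ⟨k, hk⟩ := hcov' x
      obtain ⟨y, hy, he⟩ := special_pair _ (h2 k) x hk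
      exact ⟨y, (hG x y).2 ⟨hy.symm, k, he.symm⟩⟩
    rw [Finset.not_disjoint_iff] at hnd
    obtain ⟨x₀, hx1, hx2⟩ := hnd
    obtain ⟨y₀, hy₀, hey⟩ := special_pair _ (h2 k) x₀ hx1
    obtain ⟨z₀, hz₀, hez⟩ := special_pair _ (h2 l) x₀ hx2
    have hyz : y₀ ≠ z₀ := by
      intro h
      apply hkl
      rw [hey, hez, h]
    obtain ⟨r, hr1, hr2⟩ := graph G hcovG x₀ y₀ z₀ hyz ((hG _ _).2 ⟨hy₀.symm, k, hey.symm⟩)
      ((hG _ _).2 ⟨hz₀.symm, l, hez.symm⟩)
    have hd : ∀ i, hh r (tt A B) (A i ∩ B i) ≠ 0 := by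
      intro i
      apply hd_ne r A B h2 i
      intro x hx he
      obtain ⟨y, hy, hadj⟩ := hr1 x ((hG _ _).2 ⟨hx.symm, i, he.symm⟩)
      obtain ⟨h5, h6⟩ := (hG _ _).1 hadj
      exact ⟨y, hy, h5.symm, h6⟩
    refine ⟨r, block r (tt A B) A B h2 h3 (special_ht A B) hd ?_⟩
    rcases hr2 with hl | hr
    · apply gamma_left r (hh r (tt A B)) A B h2 h3 hd
      intro i j hi hj
      obtain ⟨y, hy, he⟩ := special_pair _ (h2 i) r hi
      obtain ⟨z, hz, he'⟩ := special_pair _ (h2 j) r hj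
      have := hl y z ((hG _ _).2 ⟨hy.symm, i, he.symm⟩) ((hG _ _).2 ⟨hz.symm, j, he'.symm⟩)
      rw [he, he', this]
    · apply gamma_right r A B h2 h3
      intro x hx hk
      obtain ⟨p, hp⟩ := hr x ((hG _ _).2 ⟨hx.symm, hk⟩)
      refine ⟨fun e => ((p.darts.countP (fun d => decide (({d.fst, d.snd} : Finset α) = e)) : ℕ) : ZMod 2), ?_, ?_, ?_⟩
      · intro e he
        have : p.darts.countP (fun d => decide (({d.fst, d.snd} : Finset α) = e)) = 0 := by
          rw [List.countP_eq_zero]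
          intro d _ hde
          obtain ⟨-, k, hk⟩ := (hG _ _).1 d.adj
          have h7 : ({d.fst, d.snd} : Finset α) = e := of_decide_eq_true hde
          exact he k (h7.symm.trans hk)
        simp only [this]
        simp
      · intro x'
        exact walk_even G p x'
      · obtain ⟨m, hm⟩ := hp
        show ((p.darts.countP (fun d => decide (({d.fst, d.snd} : Finset α) = {r, x})) : ℕ) : ZMod 2) = 1
        rw [hm]
        push_cast
        have h20 : (2 : ZMod 2) = 0 := rfl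
        rw [h20]
        simp

end Q1

export Q1 (special)

end Pool.Agent.TwoFam
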