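import Pool.Agent.TwoFam.Defs
import Pool.Agent.TwoFam.N1
import Pool.Agent.TwoFam.N2
import Pool.Agent.TwoFam.N5

set_option autoImplicit false
set_option linter.unusedVariables false
set_option linter.unusedSectionVars false

namespace Pool.Agent.TwoFam

open Finset

namespace Q2

theorem core_map_hh {α : Type} [Fintype α] [DecidableEq α] {A B : Type} [CommRing A] [CommRing B]
    (f : A →+* B) (r : α) (t : Finset α → A) (e : Finset α) :
    f (hh r t e) = hh r (fun x => f (t x)) e := by
  unfold hh
  split_ifs
  · simp only [map_sum]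
  · rfl

theorem core_map_D {α : Type} [Fintype α] [DecidableEq α] {A B : Type} [CommRing A] [CommRing B]
    (f : A →+* B) (r : α) (t : Finset α → A) (S T : Finset α) :
    f (D (hh r t) S T) = D (hh r (fun x => f (t x))) S T := by
  unfold D
  rw [map_sum]
  refine Finset.sum_congr rfl fun e _ => ?_
  split_ifs
  · exact core_map_hh f r t e
  · exact map_zero f

theorem core {α : Type} [Fintype α] [DecidableEq α]
    {ι : Type} [Fintype ι] [DecidableEq ι] (a b : ℕ) (ha : 2 ≤ a) (hab : a ≤ b)
    (hα : Fintype.card α = a + b - 1) (A B : ι → Finset α)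
    (hA : ∀ i, (A i).card = a) (hB : ∀ i, (B i).card = b)
    {R : Type} [CommRing R] [Algebra (ZMod 2) R] (r : α) (t : Finset α → R)
    (hdet : (Matrix.of fun i j => D (hh r t) (A i) (B j)).det ≠ 0) :
    Fintype.card ι ≤ ∑ i ∈ Icc 2 a, 2 ^ (i - 2) * (a + b - 2 * i).choose (a - i) := by
  classical
  let R0 : Type := MvPolynomial (Finset α) (ZMod 2)
  let K : Type := FractionRing R0
  let t1 : Finset α → R0 := fun e => MvPolynomial.X e
  let tK : Finset α → K := fun e => algebraMap R0 K (t1 e)
  have hinj : Function.Injective (algebraMap R0 K) := IsFractionRing.injective R0 K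
  have hchar : CharP K 2 := charP_of_injective_algebraMap hinj 2
  -- the generic matrix is nonsingular
  let φ : R0 →+* R := (MvPolynomial.aeval t : MvPolynomial (Finset α) (ZMod 2) →ₐ[ZMod 2] R).toRingHom
  have hφ : ∀ e, φ (t1 e) = t e := fun e => MvPolynomial.aeval_X t e
  have hM0 : (Matrix.of fun i j => D (hh r t1) (A i) (B j)).det ≠ 0 := by
    intro h0
    apply hdet
    have h1 := congrArg φ h0
    rw [RingHom.map_det, map_zero] at h1
    rw [← h1]
    congr 1
    ext i j
    simp only [RingHom.mapMatrix_apply, Matrix.map_apply, Matrix.of_apply]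
    rw [core_map_D]
    simp only [hφ]
  have hM : (Matrix.of fun i j => D (hh r tK) (A i) (B j)).det ≠ 0 := by
    intro h0
    apply hM0
    apply hinj
    rw [RingHom.map_det, map_zero, ← h0]
    congr 1
    ext i j
    simp only [RingHom.mapMatrix_apply, Matrix.map_apply, Matrix.of_apply]
    rw [core_map_D]
  -- the family
  have hY : ((univ : Finset α).erase r).card = a + b - 2 := by
    rw [Finset.card_erase_of_mem (Finset.mem_univ r), Finset.card_univ, hα]
    omega
  obtain ⟨t', J, hJf, hJd, R', C', hJ, hRC, hI, ht'⟩ :=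
    family (α := α) (a + b - 2) (a - 2) ((univ : Finset α).erase r) hY
  have hRC' : ∀ j, r ∉ R' j ∧ r ∉ C' j ∧ (R' j).card + 2 = a ∧ (C' j).card + 4 = a := by
    intro j
    obtain ⟨h1, h2, h3, h4⟩ := hRC j
    refine ⟨fun h => ?_, fun h => ?_, by omega, by omega⟩
    · exact Finset.notMem_erase r _ (h1 h)
    · exact Finset.notMem_erase r _ (h2 h)
  let ψ : R0 →+* ZMod 2 := MvPolynomial.eval t'
  have hψ : ∀ e, ψ (t1 e) = t' e := fun e => MvPolynomial.eval_X e
  have hN0 : (Matrix.of fun i j => if C' j ⊆ R' i then t1 (R' i \ C' j) else (0 : R0)).det ≠ 0 := by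
    intro h0
    have h1 := congrArg ψ h0
    rw [RingHom.map_det, map_zero] at h1
    have h2 : ψ.mapMatrix (Matrix.of fun i j => if C' j ⊆ R' i then t1 (R' i \ C' j) else (0 : R0))
        = 1 := by
      ext i j
      simp only [RingHom.mapMatrix_apply, Matrix.map_apply, Matrix.of_apply, Matrix.one_apply]
      rw [← hI i j]
      split_ifs
      · exact hψ _
      · exact map_zero ψ
    rw [h2, Matrix.det_one] at h1
    exact one_ne_zero h1
  have hN : (Matrix.of fun i j => if C' j ⊆ R' i then tK (R' i \ C' j) else (0 : K)).det ≠ 0 := by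
    intro h0
    apply hN0
    apply hinj
    rw [RingHom.map_det, map_zero, ← h0]
    congr 1
    ext i j
    simp only [RingHom.mapMatrix_apply, Matrix.map_apply, Matrix.of_apply]
    split_ifs
    · rfl
    · exact map_zero _
  have hcount := count_le r tK a b ha (by omega) hα A B hA hB hM R' C' hRC' hN
  have hnum := num a b ha hab
  omega

end Q2

export Q2 (core)

end Pool.Agent.TwoFam
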