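import Pool.Agent.TwoFam.Defs
import Pool.Agent.TwoFam.Q1
import Pool.Agent.TwoFam.Q2
import Pool.Agent.TwoFam.P4
import Pool.Agent.TwoFam.P5

set_option autoImplicit false
set_option linter.unusedVariables false
set_option linter.unusedSectionVars false

namespace Pool.Agent.TwoFam

open Finset

namespace Q3

theorem final {β ι : Type} [Fintype ι] [DecidableEq β] (a b : ℕ) (ha : 2 ≤ a) (hab : a ≤ b)
    (A B : ι → Finset β) (hA : ∀ i, (A i).card = a) (hB : ∀ i, (B i).card = b)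
    (h2 : ∀ i, (A i ∩ B i).card = 2) (h3 : ∀ i j k, i ≠ j → ¬ A i ∩ B j ⊆ A k ∩ B k)
    (X : Finset β) (hX : ∀ i, A i ∪ B i ⊆ X) (hXc : X.card ≤ a + b - 1)
    (hP : Even (a + b) ∨ X.card < a + b - 1 ∨ (∃ x ∈ X, ∀ k, x ∉ A k ∩ B k) ∨
      ∃ k l, A k ∩ B k ≠ A l ∩ B l ∧ ¬ Disjoint (A k ∩ B k) (A l ∩ B l)) :
    Fintype.card ι ≤ ∑ i ∈ Icc 2 a, 2 ^ (i - 2) * (a + b - 2 * i).choose (a - i) := by
  classical
  obtain ⟨f, c1, c2, c3, c4, c5, c6, c7, c8⟩ := reduce A B X (a + b - 1) hX hXc (by omega)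
  set A' : ι → Finset (Fin (a + b - 1)) := fun i => (A i).image f with hA'
  set B' : ι → Finset (Fin (a + b - 1)) := fun i => (B i).image f with hB'
  have hAB : ∀ i j, A' i ∩ B' j = (A i ∩ B j).image f := fun i j => c3 i j
  have h2' : ∀ i, (A' i ∩ B' i).card = 2 := fun i => by
    rw [hAB, c4, h2]
  have h3' : ∀ i j k, i ≠ j → ¬ A' i ∩ B' j ⊆ A' k ∩ B' k := by
    intro i j k hij hsub
    rw [hAB, hAB] at hsub
    exact h3 i j k hij (c5 i j k hsub)
  have hcase' : (∃ x, ∀ k, x ∉ A' k ∩ B' k) ∨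
      ∃ k l, A' k ∩ B' k ≠ A' l ∩ B' l ∧ ¬ Disjoint (A' k ∩ B' k) (A' l ∩ B' l) := by
    by_contra hno
    rw [not_or] at hno
    obtain ⟨n1, n2⟩ := hno
    have hcov : ∀ x, ∃ k, x ∈ A' k ∩ B' k := by
      intro x
      by_contra hx
      exact n1 ⟨x, fun k hk => hx ⟨k, hk⟩⟩
    have hdis : ∀ k l, A' k ∩ B' k ≠ A' l ∩ B' l → Disjoint (A' k ∩ B' k) (A' l ∩ B' l) := by
      intro k l hkl
      by_contra hd
      exact n2 ⟨k, l, hkl, hd⟩
    rcases hP with h | h | h | h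
    · have h4 := even_card (fun k => A' k ∩ B' k) h2' hcov hdis
      rw [Fintype.card_fin] at h4
      obtain ⟨p, hp⟩ := h
      obtain ⟨q, hq⟩ := h4
      omega
    · obtain ⟨y, hy⟩ := c8 h
      obtain ⟨k, hk⟩ := hcov y
      rw [hAB] at hk
      exact hy k hk
    · obtain ⟨x, hx, hxk⟩ := h
      obtain ⟨k, hk⟩ := hcov (f x)
      rw [hAB] at hk
      exact c7 x hx hxk k hk
    · obtain ⟨k, l, hkl, hd⟩ := h
      have hne : A' k ∩ B' k ≠ A' l ∩ B' l := by
        rw [hAB, hAB]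
        exact fun he => hkl (c6 k l he)
      have hdd := hdis k l hne
      apply hd
      rw [Finset.disjoint_left]
      intro z hz1 hz2
      rw [hAB, hAB, Finset.disjoint_left] at hdd
      exact hdd (Finset.mem_image_of_mem f hz1) (Finset.mem_image_of_mem f hz2)
  obtain ⟨r, hr⟩ := special A' B' h2' h3' hcase'
  exact core a b ha hab (Fintype.card_fin _) A' B' (fun i => (c1 i).trans (hA i))
    (fun i => (c2 i).trans (hB i)) r (tt A' B') hr

end Q3

export Q3 (final)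

end Pool.Agent.TwoFam
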